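import Pool.Agent.L7h86.RE.Stm

/-!
# Project RE (owner helper86, problem MP_6c077c_gt), part BET
-/

set_option autoImplicit false

open Set Filter Topology Metric Function
open scoped ContDiff RealInnerProductSpace

noncomputable section

namespace Pool.Agent.L7h89.RE

open Pool.Agent.L7h86.RE

/-- `g` is negative below and positive above the slab -/
def Q {n : ℕ} (g : E n → ℝ) (x : E n) (r c : ℝ) : Prop :=
  ∃ ν : E n, ‖ν‖ = 1 ∧ ∀ y, ‖y - x‖ ≤ r →
    (⟪ν, y - x⟫ < -(c * r) → g y < 0) ∧ (c * r < ⟪ν, y - x⟫ → 0 < g y)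

theorem pos_of {n : ℕ} {g : E n → ℝ} (hg : Continuous g) {C : Set (E n)} (hC : Convex ℝ C)
    (h0 : ∀ y ∈ C, g y ≠ 0) {y₀ : E n} (hy₀ : y₀ ∈ C) (hp : 0 < g y₀) {y : E n} (hy : y ∈ C) :
    0 < g y := by
  by_contra hcon
  push Not at hcon
  obtain ⟨z, hz, h1⟩ := hC.isPreconnected.intermediate_value hy hy₀ hg.continuousOn
    (⟨hcon, hp.le⟩ : (0 : ℝ) ∈ Icc (g y) (g y₀))
  exact h0 z hz h1

theorem cvx {n : ℕ} (x ν : E n) (r c : ℝ) : Convex ℝ {y : E n | ‖y - x‖ ≤ r ∧ c < ⟪ν, y - x⟫} := by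
  have h1 : {y : E n | ‖y - x‖ ≤ r ∧ c < ⟪ν, y - x⟫} =
      closedBall x r ∩ {y | c + ⟪ν, x⟫ < innerSL ℝ ν y} := by
    ext y
    rw [mem_inter_iff, mem_closedBall, dist_eq_norm]
    show ‖y - x‖ ≤ r ∧ c < ⟪ν, y - x⟫ ↔ ‖y - x‖ ≤ r ∧ c + ⟪ν, x⟫ < ⟪ν, y⟫
    rw [inner_sub_right, lt_sub_iff_add_lt]
  rw [h1]
  exact (convex_closedBall x r).inter
    (convex_halfSpace_gt (innerSL ℝ ν).toLinearMap.isLinear _)

/-- step 1 -/
theorem step1 {n : ℕ} {g : E n → ℝ} (hg : ContDiff ℝ ∞ g) {x : E n} (hx : g x = 0)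
    (hd : fderiv ℝ g x ≠ 0) : ∃ r₁ : ℝ, 0 < r₁ ∧ ∀ r : ℝ, 0 < r → r ≤ r₁ → Q g x r (1 / 16) := by
  set L := fderiv ℝ g x with hL
  obtain ⟨v, hv⟩ : ∃ v : E n, ∀ y, L y = ⟪v, y⟫ :=
    ⟨(InnerProductSpace.toDual ℝ (E n)).symm L, fun y =>
      (InnerProductSpace.toDual_symm_apply (𝕜 := ℝ)).symm⟩
  have hv0 : v ≠ 0 := by
    rintro rfl
    apply hd
    ext y
    rw [hv, inner_zero_left]
    rfl
  have hn : 0 < ‖v‖ := norm_pos_iff.2 hv0
  have hder : HasFDerivAt g L x :=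
    (hg.differentiable (by simp)).differentiableAt.hasFDerivAt
  have h1 := hder.isLittleO.def (by positivity : 0 < ‖v‖ / 16)
  obtain ⟨ε, hε, h2⟩ := Metric.eventually_nhds_iff.1 h1
  refine ⟨ε / 2, by positivity, fun r hr hr1 => ⟨(‖v‖)⁻¹ • v, ?_, fun y hy => ?_⟩⟩
  · rw [norm_smul, norm_inv, norm_norm, inv_mul_cancel₀ hn.ne']
  have h3 := h2 (y := y) (by rw [dist_eq_norm]; linarith)
  rw [hx, sub_zero, hv, Real.norm_eq_abs, abs_le] at h3
  have h4 : ‖v‖ * ⟪(‖v‖)⁻¹ • v, y - x⟫ = ⟪v, y - x⟫ := by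
    rw [real_inner_smul_left, ← mul_assoc, mul_inv_cancel₀ hn.ne', one_mul]
  have h5 : ‖v‖ / 16 * ‖y - x‖ ≤ ‖v‖ / 16 * r := mul_le_mul_of_nonneg_left hy (by positivity)
  constructor
  · intro h
    have h6 := mul_lt_mul_of_pos_left h hn
    rw [h4] at h6
    linarith
  · intro h
    have h6 := mul_lt_mul_of_pos_left h hn
    rw [h4] at h6
    linarith

/-- step 2 -/
theorem step2 {n : ℕ} {g : E n → ℝ} (hg : Continuous g) {x : E n} {δ c r r' : ℝ}
    (hδ : δ ≤ 1 / 16) (hc : c ≤ 1 / 16) (hr' : 0 < r') (h1 : r / 2 ≤ r') (h2 : r' ≤ r)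
    (hf : ∃ ν : E n, ‖ν‖ = 1 ∧ ∀ y, g y = 0 → ‖y - x‖ ≤ r → |⟪ν, y - x⟫| ≤ δ * r)
    (hQ : Q g x r' c) : Q g x r δ := by
  obtain ⟨ν, hν, hf⟩ := hf
  obtain ⟨ν', hν', hQ⟩ := hQ
  -- the vector `u`
  have hu : ∃ u : E n, ‖u‖ ≤ 1 ∧ 1 / 16 < ⟪ν', u⟫ ∧ 1 / 8 < |⟪ν, u⟫| := by
    by_cases h : 1 / 8 < |⟪ν, ν'⟫|
    · refine ⟨ν', hν'.le, ?_, h⟩
      rw [real_inner_self_eq_norm_sq, hν']
      norm_num
    · push Not at h
      rw [abs_le] at h
      have e1 : ⟪ν', (2 / 3 : ℝ) • (ν + ν')⟫ = 2 / 3 * (⟪ν, ν'⟫ + 1) := by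
        rw [real_inner_smul_right, inner_add_right, real_inner_self_eq_norm_sq, hν',
          real_inner_comm ν ν']
        norm_num
      have e2 : ⟪ν, (2 / 3 : ℝ) • (ν + ν')⟫ = 2 / 3 * (1 + ⟪ν, ν'⟫) := by
        rw [real_inner_smul_right, inner_add_right, real_inner_self_eq_norm_sq, hν]
        norm_num
      refine ⟨(2 / 3 : ℝ) • (ν + ν'), ?_, ?_, ?_⟩
      · have h3 : ‖ν + ν'‖ ^ 2 = 2 + 2 * ⟪ν, ν'⟫ := by
          rw [norm_add_sq_real, hν, hν']
          ring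
        have h4 : ‖ν + ν'‖ ^ 2 ≤ (3 / 2) ^ 2 := by
          rw [h3]
          linarith
        have h5 : ‖ν + ν'‖ ≤ 3 / 2 := le_of_pow_le_pow_left₀ (by norm_num) (by norm_num) h4
        rw [norm_smul, Real.norm_eq_abs, abs_of_pos (by norm_num)]
        linarith
      · rw [e1]
        linarith
      · rw [e2, abs_of_nonneg (by linarith)]
        linarith
  obtain ⟨u, hu1, hu2, hu3⟩ := hu
  have hcr : c * r' ≤ 1 / 16 * r' := mul_le_mul_of_nonneg_right hc hr'.le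
  have hδr : δ * r ≤ 1 / 16 * r := mul_le_mul_of_nonneg_right hδ (by linarith)
  -- the two points
  have hp : 0 < g (x + r' • u) := by
    refine (hQ (x + r' • u) ?_).2 ?_
    · rw [add_sub_cancel_left, norm_smul, Real.norm_eq_abs, abs_of_pos hr']
      exact mul_le_of_le_one_right hr'.le hu1
    · rw [add_sub_cancel_left, real_inner_smul_right]
      nlinarith
  have hm : g (x - r' • u) < 0 := by
    refine (hQ (x - r' • u) ?_).1 ?_
    · rw [sub_sub_cancel_left, norm_neg, norm_smul, Real.norm_eq_abs, abs_of_pos hr']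
      exact mul_le_of_le_one_right hr'.le hu1
    · rw [sub_sub_cancel_left, inner_neg_right, real_inner_smul_right]
      nlinarith
  have hnp : ‖(x + r' • u) - x‖ ≤ r := by
    rw [add_sub_cancel_left, norm_smul, Real.norm_eq_abs, abs_of_pos hr']
    exact (mul_le_of_le_one_right hr'.le hu1).trans h2
  have hnm : ‖(x - r' • u) - x‖ ≤ r := by
    rw [sub_sub_cancel_left, norm_neg, norm_smul, Real.norm_eq_abs, abs_of_pos hr']
    exact (mul_le_of_le_one_right hr'.le hu1).trans h2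
  -- the main step for a direction `μ` with `⟪μ, u⟫ > 1 / 8`
  have main : ∀ μ : E n, ‖μ‖ = 1 → (∀ y, g y = 0 → ‖y - x‖ ≤ r → |⟪μ, y - x⟫| ≤ δ * r) →
      1 / 8 < ⟪μ, u⟫ → Q g x r δ := by
    intro μ hμ hz hμu
    have h8 : 1 / 16 * r < r' * ⟪μ, u⟫ := by nlinarith
    refine ⟨μ, hμ, fun y hy => ⟨fun h => ?_, fun h => ?_⟩⟩
    · -- below
      have h3 := pos_of (g := fun y => -g y) hg.neg (cvx x (-μ) r (δ * r)) (fun z hz1 h0 => by
        have h4 := hz z (neg_eq_zero.1 h0) hz1.1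
        have h5 : δ * r < ⟪-μ, z - x⟫ := hz1.2
        rw [inner_neg_left] at h5
        rw [abs_le] at h4
        linarith) (y₀ := x - r' • u) ⟨hnm, by
          rw [sub_sub_cancel_left, inner_neg_left, inner_neg_right, neg_neg,
            real_inner_smul_right]
          linarith⟩ (neg_pos.2 hm) (y := y) ⟨hy, by
          rw [inner_neg_left]
          linarith⟩
      exact neg_pos.1 h3
    · exact pos_of hg (cvx x μ r (δ * r)) (fun z hz1 h0 => by
        have h4 := hz z h0 hz1.1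
        have h5 : δ * r < ⟪μ, z - x⟫ := hz1.2
        rw [abs_le] at h4
        linarith) (y₀ := x + r' • u) ⟨hnp, by
          rw [add_sub_cancel_left, real_inner_smul_right]
          linarith⟩ hp ⟨hy, h⟩
  rcases le_total 0 ⟪ν, u⟫ with h | h
  · rw [abs_of_nonneg h] at hu3
    exact main ν hν hf hu3
  · rw [abs_of_nonpos h] at hu3
    refine main (-ν) (by rw [norm_neg]; exact hν) (fun y h3 h4 => ?_) ?_
    · rw [inner_neg_left, abs_neg]
      exact hf y h3 h4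
    · rw [inner_neg_left]
      exact hu3

/-- **BET** -/
theorem t_BET : S_BET := by
  intro n g δ r₀ hg hδ0 hδ hflat x hx
  obtain ⟨hgs, -, hgd⟩ := hg
  obtain ⟨r₁, hr₁, h1⟩ := step1 hgs hx (hgd x hx)
  have hind : ∀ k : ℕ, ∀ r : ℝ, 0 < r → r ≤ 2 ^ k * r₁ → r ≤ r₀ → Q g x r δ := by
    intro k
    induction k with
    | zero =>
      intro r hr hr1 hr0
      rw [pow_zero, one_mul] at hr1
      exact step2 hgs.continuous hδ le_rfl hr (by linarith) le_rfl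
        (by
          obtain ⟨ν, hν, h2⟩ := hflat x hx r hr hr0
          exact ⟨ν, hν, fun y hy h3 => h2 y hy h3⟩) (h1 r hr hr1)
    | succ k ih =>
      intro r hr hr1 hr0
      rw [pow_succ] at hr1
      exact step2 (r' := r / 2) hgs.continuous hδ hδ (by linarith) le_rfl (by linarith)
        (by
          obtain ⟨ν, hν, h2⟩ := hflat x hx r hr hr0
          exact ⟨ν, hν, fun y hy h3 => h2 y hy h3⟩)
        (ih (r / 2) (by linarith) (by linarith) (by linarith))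
  intro r hr hr0
  obtain ⟨k, hk⟩ := pow_unbounded_of_one_lt (r / r₁) (by norm_num : (1 : ℝ) < 2)
  rw [div_lt_iff₀ hr₁] at hk
  exact hind k r hr hk.le hr0

end Pool.Agent.L7h89.RE
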