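import Pool.Agent.L7h86.RE.Stm
import Pool.Agent.GR.Flow

/-!
# Project RE (owner helper86, problem MP_6c077c_gt), part ISO
-/

set_option autoImplicit false

open Set Filter Topology Metric Function
open scoped ContDiff RealInnerProductSpace Manifold

noncomputable section

namespace Pool.Agent.L7h89.RE

open Pool.Agent.L7h86.RE

/-- flow of the field `(X, 1)` -/
theorem flow_time {F : Type} [NormedAddCommGroup F] [NormedSpace ℝ F] [CompleteSpace F]
    (X : F → F) (hX : ContDiff ℝ ∞ X) (hc : HasCompactSupport X) (e : F) :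
    ∃ G : ℝ → F → F, ContDiff ℝ ∞ (fun q : ℝ × F => G q.1 q.2) ∧
      (∀ p, G 0 p = p) ∧ (∀ s t p, G (s + t) p = G s (G t p)) ∧
      (∀ p t, HasDerivAt (fun t => G t p) (X (G t p) + e) t) ∧
      (∀ (p : F) (c : ℝ → F), c 0 = p → (∀ t, HasDerivAt c (X (c t) + e) t) → ∀ t, G t p = c t) := by
  obtain ⟨K, hK⟩ := hX.lipschitzWith_of_hasCompactSupport hc (by simp)
  obtain ⟨M, hM⟩ := hc.exists_bound_of_continuous hX.continuous
  set Y : F → F := fun p => X p + e with hY
  have hYs : ContDiff ℝ ∞ Y := hX.add contDiff_const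
  have hKY : LipschitzWith K Y := by
    refine LipschitzWith.of_dist_le_mul fun x y => ?_
    rw [hY, dist_add_right]
    exact hK.dist_le_mul x y
  have hM' : ∀ x, ‖Y x‖ ≤ (Real.toNNReal (M + ‖e‖) : NNReal) := fun x =>
    ((norm_add_le _ _).trans (add_le_add (hM x) le_rfl)).trans (Real.le_coe_toNNReal _)
  choose g h0 h1 using fun p => Pool.Agent.GR.Flow.exists_solution hKY hM' p
  have hfl : Pool.Agent.GR.Flow.IsFlowOf Y (fun t p => g p t) := ⟨h0, h1⟩
  refine ⟨fun t p => g p t, ?_, h0, fun s t p => hfl.add hKY s t p, h1, ?_⟩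
  · rw [contDiff_infty]
    intro m
    have key : ∀ m : ℕ, m ≠ 0 → ContDiff ℝ m (fun q : ℝ × F => g q.2 q.1) := by
      intro m hm
      exact Pool.Agent.GR.Flow.contDiff_flow (X := ⟨Y, hYs.continuous⟩) hm
        (hYs.of_le (by exact_mod_cast le_top)) hKY hfl
    exact (key (m + 1) (by omega)).of_le (by exact_mod_cast Nat.le_succ m)
  · intro p c hc0 hc1 t
    have h2 : g p = c := by
      refine ODE_solution_unique_univ (v := fun _ => Y) (s := fun _ => univ) (K := K) (t₀ := 0)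
        (fun t => hKY.lipschitzOnWith) (fun t => ⟨h1 p t, trivial⟩)
        (fun t => ⟨hc1 t, trivial⟩) ?_
      rw [h0, hc0]
    exact congrFun h2 t

/-- a function on `[0, 1]` which is locally constant near its zeros does not change sign -/
theorem sign_const {f : ℝ → ℝ} (hf : Continuous f)
    (h : ∀ t ∈ Icc (0 : ℝ) 1, f t = 0 → ∀ᶠ s in 𝓝 t, f s = 0) : 0 ≤ f 0 ↔ 0 ≤ f 1 := by
  have h01 : (0 : ℝ) ∈ Icc (0 : ℝ) 1 := ⟨le_rfl, zero_le_one⟩
  have h11 : (1 : ℝ) ∈ Icc (0 : ℝ) 1 := ⟨zero_le_one, le_rfl⟩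
  by_cases hz : ∃ t ∈ Icc (0 : ℝ) 1, f t = 0
  · obtain ⟨t₀, ht₀, hf₀⟩ := hz
    have hall : ∀ t ∈ Icc (0 : ℝ) 1, f t = 0 := by
      intro t ht
      by_contra hne
      obtain ⟨s, hs, hs1, hs2⟩ := isPreconnected_Icc {t | f t ≠ 0} {t | ∀ᶠ s in 𝓝 t, f s = 0}
        (isOpen_ne_fun hf continuous_const) isOpen_setOfPred_eventually_nhds (fun s hs => by
          by_cases h0 : f s = 0
          · exact Or.inr (h s hs h0)
          · exact Or.inl h0) ⟨t, ht, hne⟩ ⟨t₀, ht₀, h t₀ ht₀ hf₀⟩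
      have hs3 : ∀ᶠ r in 𝓝 s, f r = 0 := hs2
      exact hs1 hs3.self_of_nhds
    rw [hall 0 h01, hall 1 h11]
  · push Not at hz
    constructor
    · intro h0
      by_contra h1
      push Not at h1
      obtain ⟨t, ht, h2⟩ := (isPreconnected_Icc (a := (0 : ℝ)) (b := 1)).intermediate_value h11 h01
        hf.continuousOn (⟨h1.le, h0⟩ : (0 : ℝ) ∈ Icc (f 1) (f 0))
      exact hz t ht h2
    · intro h1
      by_contra h0
      push Not at h0
      obtain ⟨t, ht, h2⟩ := (isPreconnected_Icc (a := (0 : ℝ)) (b := 1)).intermediate_value h01 h11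
        hf.continuousOn (⟨h0.le, h1⟩ : (0 : ℝ) ∈ Icc (f 0) (f 1))
      exact hz t ht h2

/-- **ISO** -/
theorem t_ISO : S_ISO := by
  intro n V R hV hreg
  -- the gradient in the first variable
  let G : E n × ℝ → E n := fun p =>
    (InnerProductSpace.toDual ℝ (E n)).symm
      ((fderiv ℝ V p).comp (ContinuousLinearMap.inl ℝ (E n) ℝ))
  have hfd : ContDiff ℝ ∞ (fderiv ℝ V) := hV.fderiv_right (by simp)
  have hG : ContDiff ℝ ∞ G := by
    have h1 : ContDiff ℝ ∞ fun p => (fderiv ℝ V p).comp (ContinuousLinearMap.inl ℝ (E n) ℝ) :=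
      hfd.clm_comp contDiff_const
    exact (InnerProductSpace.toDual ℝ (E n)).symm.toContinuousLinearEquiv.contDiff.comp h1
  have hGin : ∀ p y, ⟪G p, y⟫ = fderiv ℝ V p (y, 0) := by
    intro p y
    show ⟪(InnerProductSpace.toDual ℝ (E n)).symm _, y⟫ = _
    rw [InnerProductSpace.toDual_symm_apply]
    rfl
  let T : E n × ℝ → ℝ := fun p => fderiv ℝ V p (0, 1)
  have hT : ContDiff ℝ ∞ T := hfd.clm_apply contDiff_const
  -- the compact set of the zeros
  let Z : Set (E n × ℝ) := {p | V p = 0 ∧ p.2 ∈ Icc (0 : ℝ) 1}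
  have hZc : IsCompact Z := by
    refine ((isCompact_closedBall (0 : E n) R).prod (isCompact_Icc (a := (0 : ℝ)) (b := 1))
      ).of_isClosed_subset ?_ ?_
    · exact (isClosed_eq hV.continuous continuous_const).inter
        (isClosed_Icc.preimage continuous_snd)
    · rintro ⟨x, t⟩ ⟨h1, h2⟩
      refine ⟨?_, h2⟩
      rw [mem_closedBall, dist_zero_right]
      exact (hreg x t h2.1 h2.2 h1).1
  have hZG : ∀ p ∈ Z, G p ≠ 0 := by
    rintro ⟨x, t⟩ ⟨h1, h2⟩ h3
    obtain ⟨ν, hν⟩ := (hreg x t h2.1 h2.2 h1).2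
    apply hν
    have h4 : HasFDerivAt (fun y : E n => V (y, t))
        ((fderiv ℝ V (x, t)).comp (ContinuousLinearMap.inl ℝ (E n) ℝ)) x := by
      have h5 : HasFDerivAt V (fderiv ℝ V (x, t)) (x, t) :=
        (hV.differentiable (by simp)).differentiableAt.hasFDerivAt
      exact h5.comp x (hasFDerivAt_prodMk_left x t)
    rw [h4.fderiv]
    have h6 := hGin (x, t) ν
    rw [h3, inner_zero_left] at h6
    exact h6.symm
  have hO : IsOpen {p | G p ≠ 0} := isOpen_ne_fun hG.continuous continuous_const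
  obtain ⟨L, hL, hL1, hL2⟩ := exists_compact_between hZc hO hZG
  obtain ⟨β, b1, b2, b3⟩ := exists_contMDiffMap_one_nhds_of_subset_interior
    (I := 𝓘(ℝ, E n × ℝ)) (n := (⊤ : ℕ∞)) hZc.isClosed hL1
  have hβs : ContDiff ℝ ∞ β := β.contMDiff.contDiff
  have hβ01 : ∀ p, 0 ≤ β p ∧ β p ≤ 1 := fun p => b3 p
  have hβc : HasCompactSupport β := by
    refine hL.of_isClosed_subset (isClosed_tsupport _) (closure_minimal ?_ hL.isClosed)
    intro w hw
    by_contra hn
    exact hw (b2 w hn)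
  -- the denominator
  let D : E n × ℝ → ℝ := fun p => ‖G p‖ ^ 2 + (1 - β p)
  have hD : ContDiff ℝ ∞ D := (hG.norm_sq ℝ).add (contDiff_const.sub hβs)
  have hD0 : ∀ p, 0 < D p := by
    intro p
    rcases (hβ01 p).2.lt_or_eq with h | h
    · have : 0 ≤ ‖G p‖ ^ 2 := sq_nonneg _
      show 0 < ‖G p‖ ^ 2 + (1 - β p)
      linarith
    · have h1 : p ∈ L := by
        by_contra hn
        rw [b2 p hn] at h
        exact zero_ne_one h
      have h2 : G p ≠ 0 := hL2 h1
      have : 0 < ‖G p‖ ^ 2 := by positivity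
      show 0 < ‖G p‖ ^ 2 + (1 - β p)
      linarith
  -- the field
  let A : E n × ℝ → ℝ := fun p => -(β p * T p) / D p
  have hA : ContDiff ℝ ∞ A := (hβs.mul hT).neg.div hD fun p => (hD0 p).ne'
  let X : E n × ℝ → E n × ℝ := fun p => (A p • G p, 0)
  have hX : ContDiff ℝ ∞ X := (hA.smul hG).prodMk contDiff_const
  have hXc : HasCompactSupport X := by
    refine hβc.mono ?_
    intro p hp
    rw [mem_support] at hp ⊢
    intro h
    apply hp
    show ((-(β p * T p) / D p) • G p, (0 : ℝ)) = 0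
    rw [h, zero_mul, neg_zero, zero_div, zero_smul]
    rfl
  obtain ⟨g, hg, hg0, hgadd, hgd, hgu⟩ := flow_time X hX hXc ((0 : E n), (1 : ℝ))
  -- the second coordinate
  have hg2 : ∀ (p : E n × ℝ) (t : ℝ), (g t p).2 = p.2 + t := by
    intro p t
    have h1 : ∀ t, HasDerivAt (fun t => (g t p).2 - t) 0 t := by
      intro t
      have h2 : HasDerivAt (fun t => (g t p).2) (X (g t p) + ((0 : E n), (1 : ℝ))).2 t :=
        (hgd p t).snd
      have h3 := h2.sub (hasDerivAt_id t)
      have h4 : (X (g t p) + ((0 : E n), (1 : ℝ))).2 - 1 = 0 := by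
        show (0 : ℝ) + 1 - 1 = 0
        norm_num
      rw [h4] at h3
      exact h3
    have h5 := is_const_of_deriv_eq_zero (fun t => (h1 t).differentiableAt)
      (fun t => (h1 t).deriv) t 0
    simp only [hg0, sub_zero] at h5
    linarith
  let Φ : ℝ × E n → E n := fun q => (g q.1 (q.2, 0)).1
  let Ψ : ℝ × E n → E n := fun q => (g (-q.1) (q.2, q.1)).1
  have hgΦ : ∀ t x, g t (x, 0) = (Φ (t, x), t) := fun t x => Prod.ext rfl (by
    rw [hg2]
    show (0 : ℝ) + t = t
    rw [zero_add])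
  have hgΨ : ∀ t x, g (-t) (x, t) = (Ψ (t, x), 0) := fun t x => Prod.ext rfl (by
    rw [hg2]
    show t + -t = 0
    rw [add_neg_cancel])
  have hΨΦ : ∀ t x, Ψ (t, Φ (t, x)) = x := by
    intro t x
    show (g (-t) (Φ (t, x), t)).1 = x
    rw [← hgΦ, ← hgadd, neg_add_cancel, hg0]
  have hΦΨ : ∀ t x, Φ (t, Ψ (t, x)) = x := by
    intro t x
    show (g t (Ψ (t, x), 0)).1 = x
    rw [← hgΨ, ← hgadd, add_neg_cancel, hg0]
  -- the sign
  have hsign : ∀ x, 0 ≤ V (x, 0) ↔ 0 ≤ V (Φ (1, x), 1) := by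
    intro x
    have hct : Continuous fun t => g t (x, 0) := by
      have h1 : Continuous fun q : ℝ × (E n × ℝ) => g q.1 q.2 := hg.continuous
      exact h1.comp (by fun_prop : Continuous fun t : ℝ => (t, ((x, (0 : ℝ)) : E n × ℝ)))
    have hder : ∀ t, HasDerivAt (fun t => V (g t (x, 0)))
        (fderiv ℝ V (g t (x, 0)) (X (g t (x, 0)) + ((0 : E n), (1 : ℝ)))) t := fun t =>
      ((hV.differentiable (by simp)).differentiableAt.hasFDerivAt).comp_hasDerivAt t (hgd _ t)
    have hnear : ∀ p, β p = 1 → G p ≠ 0 →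
        fderiv ℝ V p (X p + ((0 : E n), (1 : ℝ))) = 0 := by
      intro p hp hGp
      have h1 : fderiv ℝ V p (X p + ((0 : E n), (1 : ℝ))) = ⟪G p, A p • G p⟫ + T p := by
        rw [map_add]
        congr 1
        exact (hGin p (A p • G p)).symm
      have h2 : A p = -T p / ‖G p‖ ^ 2 := by
        show -(β p * T p) / (‖G p‖ ^ 2 + (1 - β p)) = _
        rw [hp, one_mul, sub_self, add_zero]
      have h3 : ‖G p‖ ^ 2 ≠ 0 := pow_ne_zero 2 (norm_ne_zero_iff.2 hGp)
      rw [h1, real_inner_smul_right, real_inner_self_eq_norm_sq, h2, div_mul_cancel₀ _ h3,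
        neg_add_cancel]
    have hs := sign_const (f := fun t => V (g t (x, 0))) (hV.continuous.comp hct) ?_
    · simp only [hgΦ] at hs
      have h0 : Φ (0, x) = x := by
        show (g 0 (x, 0)).1 = x
        rw [hg0]
      rw [h0] at hs
      exact hs
    · intro t ht hft
      have hp : g t (x, 0) ∈ Z := ⟨hft, by
        rw [hg2]
        show (0 : ℝ) + t ∈ Icc (0 : ℝ) 1
        rw [zero_add]
        exact ht⟩
      have h1a : ∀ᶠ p in 𝓝 (g t (x, 0)), β p = 1 := (mem_nhdsSet_iff_forall.1 b1) _ hp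
      have h1b : ∀ᶠ p in 𝓝 (g t (x, 0)), G p ≠ 0 := hO.mem_nhds (hZG _ hp)
      have h1 : ∀ᶠ p in 𝓝 (g t (x, 0)), β p = 1 ∧ G p ≠ 0 := h1a.and h1b
      have h2 : ∀ᶠ s in 𝓝 t, β (g s (x, 0)) = 1 ∧ G (g s (x, 0)) ≠ 0 :=
        (hct.tendsto t).eventually h1
      obtain ⟨ε, hε, h3⟩ := Metric.eventually_nhds_iff_ball.1 h2
      refine Metric.eventually_nhds_iff_ball.2 ⟨ε, hε, fun s hs => ?_⟩
      have h4 := (convex_ball t ε).is_const_of_fderivWithin_eq_zero (𝕜 := ℝ)
        (f := fun t => V (g t (x, 0)))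
        (fun r _ => (hder r).differentiableAt.differentiableWithinAt) (fun r hr => by
          have h5 : HasDerivWithinAt (fun t => V (g t (x, 0))) 0 (ball t ε) r := by
            have h6 := hder r
            rw [hnear _ (h3 r hr).1 (h3 r hr).2] at h6
            exact h6.hasDerivWithinAt
          have h7 := h5.hasFDerivWithinAt.fderivWithin (isOpen_ball.uniqueDiffWithinAt hr)
          rw [h7]
          ext
          simp) hs (mem_ball_self hε)
      exact h4.trans hft
  refine ⟨Φ, Ψ, ?_, ?_, hΨΦ, hΦΨ, ?_, ?_, ?_⟩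
  · exact (hg.comp (contDiff_fst.prodMk (contDiff_snd.prodMk contDiff_const))).fst
  · exact (hg.comp ((contDiff_fst.neg).prodMk (contDiff_snd.prodMk contDiff_fst))).fst
  · intro x
    show (g 0 (x, 0)).1 = x
    rw [hg0]
  · obtain ⟨R', hR'⟩ := hL.isBounded.subset_closedBall (0 : E n × ℝ)
    refine ⟨R' + 1, fun t x hx => ?_⟩
    have h1 : ∀ s : ℝ, X (x, s) = 0 := by
      intro s
      have h2 : β (x, s) = 0 := by
        refine b2 _ fun hmem => ?_
        have h3 := hR' hmem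
        rw [mem_closedBall, dist_zero_right, Prod.norm_def] at h3
        have h4 : ‖x‖ ≤ R' := (le_max_left _ _).trans h3
        linarith
      show ((-(β (x, s) * T (x, s)) / D (x, s)) • G (x, s), (0 : ℝ)) = 0
      rw [h2, zero_mul, neg_zero, zero_div, zero_smul]
      rfl
    have h3 := hgu (x, 0) (fun s => (x, s)) rfl (fun s => by
      show HasDerivAt (fun s : ℝ => (x, s)) (X (x, s) + ((0 : E n), (1 : ℝ))) s
      rw [h1, zero_add]
      exact (hasDerivAt_const s x).prodMk (hasDerivAt_id s)) t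
    show (g t (x, 0)).1 = x
    rw [h3]
  · ext y
    constructor
    · rintro ⟨x, hx, rfl⟩
      exact (hsign x).1 hx
    · intro hy
      refine ⟨Ψ (1, y), (hsign _).2 ?_, hΦΨ 1 y⟩
      rw [hΦΨ]
      exact hy

end Pool.Agent.L7h89.RE
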