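import Pool.Agent.L7h86.RE.Stm

/-!
# Project RE (owner helper86, problem MP_6c077c_gt), part KEY
-/

set_option autoImplicit false

open Set Filter Topology Metric Function MeasureTheory
open scoped ContDiff RealInnerProductSpace

noncomputable section

namespace Pool.Agent.L7h89.RE

open Pool.Agent.L7h86.RE

/-- **KEY** -/
theorem t_KEY (hker : S_KER) : S_KEY := by
  intro n κ β a ν F hκ0 hκ1 hν hβ hβn hF hF01 hFm hFp hZ
  obtain ⟨hph, hph01, hphpos, hphc, hZ0, hgg, hggc, hgg0, hggs, -, hgg2, hgg1, hggn⟩ :=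
    hker n κ hκ0 hκ1
  have hphct : Continuous (ph κ : E n → ℝ) := hph.continuous
  have hph0 : ∀ s : E n, ¬ ‖s‖ < 1 → ph κ s = 0 := by
    intro s hs
    have h1 := (hphpos s).not.2 hs
    exact le_antisymm (not_lt.1 h1) (hph01 s).1
  -- integrability
  have hI1 : Integrable (fun s : E n => ph κ s) :=
    hphct.integrable_of_hasCompactSupport hphc
  have hI2 : Integrable (fun s : E n => ph κ s * F s) :=
    (hphct.mul hF).integrable_of_hasCompactSupport hphc.mul_right
  have hFn : Continuous (fun s : E n => F (-s)) := hF.comp continuous_neg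
  have hI3 : Integrable (fun s : E n => ph κ s * F (-s)) :=
    (hphct.mul hFn).integrable_of_hasCompactSupport hphc.mul_right
  have hsym : ∫ s : E n, ph κ s * F (-s) = ∫ s : E n, ph κ s * F s := by
    have h1 := integral_neg_eq_self (fun s : E n => ph κ s * F s) volume
    rw [← h1]
    refine integral_congr_ae (Eventually.of_forall fun s => ?_)
    show ph κ s * F (-s) = ph κ (-s) * F (-s)
    have h2 : ph κ (-s) = ph κ s := by
      unfold ph
      rw [norm_neg]
    rw [h2]
  have hsum : ∫ s : E n, ph κ s * (1 - F s - F (-s)) = 0 := by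
    have h1 : ∀ s : E n, ph κ s * (1 - F s - F (-s)) = ph κ s - ph κ s * F s - ph κ s * F (-s) :=
      fun s => by ring
    have hI4 : Integrable (fun s : E n => ph κ s - ph κ s * F s) := hI1.sub hI2
    simp_rw [h1]
    rw [integral_sub hI4 hI3, integral_sub hI1 hI2, hsym]
    have h2 : ∫ s : E n, ph κ s = ZZ n κ := rfl
    rw [h2]
    linarith
  have hct : Continuous (fun s : E n => ph κ s * (1 - F s - F (-s))) :=
    hphct.mul ((continuous_const.sub hF).sub hFn)
  have hcc : HasCompactSupport (fun s : E n => ph κ s * (1 - F s - F (-s))) := hphc.mul_right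
  have hp0 : 0 < ph κ (0 : E n) := (hphpos 0).2 (by rw [norm_zero]; exact one_pos)
  -- `a ≤ β`
  have ha1 : a ≤ β := by
    by_contra hcon
    push Not at hcon
    have h1 : 0 < ∫ s : E n, ph κ s * (1 - F s - F (-s)) := by
      refine hct.integral_pos_of_hasCompactSupport_nonneg_nonzero hcc (fun s => ?_) (x := 0) ?_
      · by_cases hs : ‖s‖ < 1
        · refine mul_nonneg (hph01 s).1 ?_
          rcases le_total 0 ⟪ν, s⟫ with h | h
          · rw [hFp s hs.le (by linarith)]
            linarith [(hF01 (-s)).2]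
          · rw [hFp (-s) (by rw [norm_neg]; exact hs.le) (by rw [inner_neg_right]; linarith)]
            linarith [(hF01 s).2]
        · rw [hph0 s hs, zero_mul]
          exact le_rfl
      · have h2 : F 0 = 0 := hFp 0 (by rw [norm_zero]; exact zero_le_one)
          (by rw [inner_zero_right]; linarith)
        show ph κ (0 : E n) * (1 - F 0 - F (-0)) ≠ 0
        rw [neg_zero, h2, sub_zero, sub_zero, mul_one]
        exact hp0.ne'
    linarith
  -- `-β ≤ a`
  have ha2 : -β ≤ a := by
    by_contra hcon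
    push Not at hcon
    have hcc' : HasCompactSupport (fun s : E n => -(ph κ s * (1 - F s - F (-s)))) :=
      hcc.comp_left (g := fun x : ℝ => -x) neg_zero
    have h1 : 0 < ∫ s : E n, -(ph κ s * (1 - F s - F (-s))) := by
      refine hct.neg.integral_pos_of_hasCompactSupport_nonneg_nonzero hcc' (fun s => ?_)
        (x := 0) ?_
      · show 0 ≤ -(ph κ s * (1 - F s - F (-s)))
        by_cases hs : ‖s‖ < 1
        · have h3 : 0 ≤ ph κ s * (F s + F (-s) - 1) := by
            refine mul_nonneg (hph01 s).1 ?_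
            rcases le_total 0 ⟪ν, s⟫ with h | h
            · rw [hFm (-s) (by rw [norm_neg]; exact hs.le) (by rw [inner_neg_right]; linarith)]
              linarith [(hF01 s).1]
            · rw [hFm s hs.le (by linarith)]
              linarith [(hF01 (-s)).1]
          linarith
        · rw [hph0 s hs, zero_mul, neg_zero]
      · have h2 : F 0 = 1 := hFm 0 (by rw [norm_zero]; exact zero_le_one)
          (by rw [inner_zero_right]; linarith)
        show -(ph κ (0 : E n) * (1 - F 0 - F (-0))) ≠ 0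
        rw [neg_zero, h2]
        have : -(ph κ (0 : E n) * (1 - 1 - 1)) = ph κ (0 : E n) := by ring
        rw [this]
        exact hp0.ne'
    rw [integral_neg, hsum, neg_zero] at h1
    exact lt_irrefl _ h1
  -- integrability of the terms with `gg`
  have hin : Continuous (fun s : E n => ⟪ν, s⟫) := continuous_const.inner continuous_id
  have hJ1 : Integrable (fun s : E n => F s * (⟪ν, s⟫ * gg κ s)) :=
    (hF.mul (hin.mul hgg)).integrable_of_hasCompactSupport (hggc.mul_left.mul_left)
  have hJ2 : Integrable (fun s : E n => ⟪ν, s⟫ * gg κ s) :=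
    (hin.mul hgg).integrable_of_hasCompactSupport hggc.mul_left
  have hJ3 : Integrable (fun s : E n => ⟪ν, s⟫ ^ 2 * gg κ s) :=
    ((hin.pow 2).mul hgg).integrable_of_hasCompactSupport hggc.mul_left
  have hJ4 : Integrable (fun s : E n => gg κ s) := hgg.integrable_of_hasCompactSupport hggc
  -- the pointwise inequality
  have hpt : ∀ s : E n, F s * (⟪ν, s⟫ * gg κ s) ≤
      1 / 2 * (⟪ν, s⟫ * gg κ s) - 1 / 2 * (⟪ν, s⟫ ^ 2 * gg κ s) + 2 * β * gg κ s := by
    intro s
    by_cases hs : gg κ s = 0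
    · rw [hs]
      simp
    · have hs1 : ‖s‖ ≤ 1 := (hggs s hs).2
      have hz1 : |⟪ν, s⟫| ≤ 1 := by
        refine (abs_real_inner_le_norm ν s).trans ?_
        rw [hν, one_mul]
        exact hs1
      have hz2 : ⟪ν, s⟫ ^ 2 ≤ |⟪ν, s⟫| := by
        rw [← sq_abs]
        nlinarith [abs_nonneg ⟪ν, s⟫]
      have hkey : F s * ⟪ν, s⟫ ≤ 1 / 2 * ⟪ν, s⟫ - 1 / 2 * |⟪ν, s⟫| + 2 * β := by
        obtain ⟨hF0, hF1⟩ := hF01 s
        rcases le_or_gt ⟪ν, s⟫ (-a - β) with h | h
        · rw [hFm s hs1 h, abs_of_nonpos (by linarith)]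
          linarith
        rcases le_or_gt (-a + β) ⟪ν, s⟫ with h' | h'
        · rw [hFp s hs1 h', abs_of_nonneg (by linarith)]
          linarith
        rcases le_total 0 ⟪ν, s⟫ with h0 | h0
        · rw [abs_of_nonneg h0]
          have : F s * ⟪ν, s⟫ ≤ 1 * ⟪ν, s⟫ := mul_le_mul_of_nonneg_right hF1 h0
          linarith
        · rw [abs_of_nonpos h0]
          have : F s * ⟪ν, s⟫ ≤ 0 := mul_nonpos_of_nonneg_of_nonpos hF0 h0
          linarith
      have h1 : F s * ⟪ν, s⟫ ≤ 1 / 2 * ⟪ν, s⟫ - 1 / 2 * ⟪ν, s⟫ ^ 2 + 2 * β := by linarith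
      have h2 := mul_le_mul_of_nonneg_right h1 (hgg0 s)
      calc F s * (⟪ν, s⟫ * gg κ s) = F s * ⟪ν, s⟫ * gg κ s := by ring
        _ ≤ _ := h2
        _ = _ := by ring
  have hint := integral_mono hJ1
    (((hJ2.const_mul (1 / 2)).sub (hJ3.const_mul (1 / 2))).add (hJ4.const_mul (2 * β))) hpt
  have hev : ∫ s : E n, (1 / 2 * (⟪ν, s⟫ * gg κ s) - 1 / 2 * (⟪ν, s⟫ ^ 2 * gg κ s) +
      2 * β * gg κ s) = -(1 / 2) * ZZ n κ + 2 * β * ∫ s : E n, gg κ s := by
    have e1 : Integrable (fun s : E n => 1 / 2 * (⟪ν, s⟫ * gg κ s)) := hJ2.const_mul _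
    have e2 : Integrable (fun s : E n => 1 / 2 * (⟪ν, s⟫ ^ 2 * gg κ s)) := hJ3.const_mul _
    have e3 : Integrable (fun s : E n => 2 * β * gg κ s) := hJ4.const_mul _
    have e4 : Integrable (fun s : E n => 1 / 2 * (⟪ν, s⟫ * gg κ s) -
      1 / 2 * (⟪ν, s⟫ ^ 2 * gg κ s)) := e1.sub e2
    rw [integral_add e4 e3, integral_sub e1 e2, integral_const_mul, integral_const_mul,
      integral_const_mul, hgg1 ν, hgg2 ν hν]
    ring
  refine lt_of_le_of_lt (hint.trans_eq hev) ?_
  have h1κ : 0 < 1 - κ := by linarith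
  -- `4 β ∫ gg < ZZ`
  have hgi : (1 - κ) * (4 * β * ∫ s : E n, gg κ s) < (1 - κ) * ZZ n κ := by
    calc (1 - κ) * (4 * β * ∫ s : E n, gg κ s) = 4 * β * ((1 - κ) * ∫ s : E n, gg κ s) := by ring
      _ ≤ 4 * β * (n * ZZ n κ) := mul_le_mul_of_nonneg_left hggn (by linarith)
      _ = (4 * n * β) * ZZ n κ := by ring
      _ < _ := mul_lt_mul_of_pos_right hβn hZ0
  have h2 := lt_of_mul_lt_mul_left hgi h1κ.le
  linarith

end Pool.Agent.L7h89.RE
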